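import Pool.Agent.H586.AF.B

/-!
# Task AF-LD (helper404): second derivative of the logarithm of a determinant
-/

set_option autoImplicit false
set_option linter.unusedVariables false

open Matrix Finset Filter Topology

namespace Pool.Agent.H404.AF

open Pool.Agent.H586.AF

section
variable {n : Type} [Fintype n] [DecidableEq n]

/-- Jacobi's formula -/
theorem hasDerivAt_det (A : ℝ → Matrix n n ℂ) (A' : Matrix n n ℂ) (x : ℝ)
    (h : ∀ i j, HasDerivAt (fun θ => A θ i j) (A' i j) x) :
    HasDerivAt (fun θ => (A θ).det) (((A x).adjugate * A').trace) x := by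
  have h1 : HasDerivAt (fun θ => ∑ σ : Equiv.Perm n,
      ((Equiv.Perm.sign σ : ℤ) : ℂ) * ∏ i, A θ (σ i) i)
      (∑ σ : Equiv.Perm n, ((Equiv.Perm.sign σ : ℤ) : ℂ) *
        ∑ k, (∏ i ∈ Finset.univ.erase k, A x (σ i) i) • A' (σ k) k) x := by
    apply HasDerivAt.fun_sum
    intro σ _
    apply HasDerivAt.const_mul
    apply HasDerivAt.fun_finsetProd
    intro i _
    exact h _ _
  have h2 : (fun θ => (A θ).det) = fun θ => ∑ σ : Equiv.Perm n,
      ((Equiv.Perm.sign σ : ℤ) : ℂ) * ∏ i, A θ (σ i) i := by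
    funext θ
    rw [Matrix.det_apply']
  rw [h2]
  refine h1.congr_deriv ?_
  have h3 : ∀ k : n, ((A x).adjugate * A') k k =
      ∑ σ : Equiv.Perm n, ((Equiv.Perm.sign σ : ℤ) : ℂ) *
        ((∏ i ∈ Finset.univ.erase k, A x (σ i) i) • A' (σ k) k) := by
    intro k
    have h4 : ((A x).adjugate * A') k k = Matrix.cramer (A x) (fun j => A' j k) k := by
      rw [Matrix.cramer_eq_adjugate_mulVec]
      rfl
    rw [h4, Matrix.cramer_apply, Matrix.det_apply']
    refine Finset.sum_congr rfl fun σ _ => ?_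
    rw [← Finset.mul_prod_erase Finset.univ _ (Finset.mem_univ k)]
    have h5 : (∏ i ∈ Finset.univ.erase k, (A x).updateCol k (fun j => A' j k) (σ i) i) =
        ∏ i ∈ Finset.univ.erase k, A x (σ i) i := by
      refine Finset.prod_congr rfl fun i hi => ?_
      rw [Matrix.updateCol_ne (Finset.ne_of_mem_erase hi)]
    rw [h5, Matrix.updateCol_self, smul_eq_mul, mul_comm (A' (σ k) k)]
  rw [Matrix.trace]
  simp only [Matrix.diag_apply, h3]
  rw [Finset.sum_comm]
  refine Finset.sum_congr rfl fun σ _ => ?_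
  rw [Finset.mul_sum]

theorem differentiable_det (A : ℝ → Matrix n n ℂ)
    (h : ∀ i j, Differentiable ℝ fun θ => A θ i j) : Differentiable ℝ fun θ => (A θ).det :=
  fun x => (hasDerivAt_det A (Matrix.of fun i j => deriv (fun θ => A θ i j) x) x
    (fun i j => (h i j x).hasDerivAt)).differentiableAt

theorem differentiable_adjugate (A : ℝ → Matrix n n ℂ)
    (h : ∀ i j, Differentiable ℝ fun θ => A θ i j) (i j : n) :
    Differentiable ℝ fun θ => (A θ).adjugate i j := by
  have h1 : (fun θ => (A θ).adjugate i j) =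
      fun θ => ((A θ).updateRow j (Pi.single i 1)).det := by
    funext θ
    rw [Matrix.adjugate_apply]
  rw [h1]
  apply differentiable_det
  intro a b
  by_cases hab : a = j
  · subst hab
    have h2 : (fun θ => (A θ).updateRow a (Pi.single i 1) a b) =
        fun _ => (Pi.single i (1 : ℂ) : n → ℂ) b := by
      funext θ
      rw [Matrix.updateRow_self]
    rw [h2]
    exact differentiable_const _
  · have h2 : (fun θ => (A θ).updateRow j (Pi.single i 1) a b) = fun θ => A θ a b := by
      funext θ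
      rw [Matrix.updateRow_ne hab]
    rw [h2]
    exact h a b

/-- the entries of the inverse are differentiable where the determinant does not vanish -/
theorem differentiableAt_inv (A : ℝ → Matrix n n ℂ)
    (h : ∀ i j, Differentiable ℝ fun θ => A θ i j) (x : ℝ) (hx : (A x).det ≠ 0) (i j : n) :
    DifferentiableAt ℝ (fun θ => (A θ)⁻¹ i j) x := by
  have h1 : (fun θ => (A θ)⁻¹ i j) = fun θ => ((A θ).det)⁻¹ * (A θ).adjugate i j := by
    funext θ
    rw [Matrix.inv_def, Matrix.smul_apply, Ring.inverse_eq_inv', smul_eq_mul]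
  rw [h1]
  exact ((differentiable_det A h x).inv hx).mul (differentiable_adjugate A h i j x)

/-- derivative of the inverse -/
theorem hasDerivAt_inv (A : ℝ → Matrix n n ℂ)
    (h : ∀ i j, Differentiable ℝ fun θ => A θ i j) (x : ℝ) (hx : (A x).det ≠ 0) (i j : n) :
    HasDerivAt (fun θ => (A θ)⁻¹ i j)
      ((-((A x)⁻¹ * (Matrix.of fun i j => deriv (fun θ => A θ i j) x) * (A x)⁻¹)) i j) x := by
  have hu : IsUnit (A x).det := isUnit_iff_ne_zero.mpr hx
  have hd : ∀ a b, HasDerivAt (fun θ => (A θ)⁻¹ a b)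
      ((Matrix.of fun i j => deriv (fun θ => (A θ)⁻¹ i j) x) a b) x := fun a b =>
    (differentiableAt_inv A h x hx a b).hasDerivAt
  have hA : ∀ a b, HasDerivAt (fun θ => A θ a b)
      ((Matrix.of fun i j => deriv (fun θ => A θ i j) x) a b) x := fun a b =>
    (h a b x).hasDerivAt
  set A' : Matrix n n ℂ := Matrix.of fun i j => deriv (fun θ => A θ i j) x with hA'
  set B' : Matrix n n ℂ := Matrix.of fun i j => deriv (fun θ => (A θ)⁻¹ i j) x with hB'
  have hne : ∀ᶠ θ in 𝓝 x, (A θ).det ≠ 0 :=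
    ((differentiable_det A h).continuous.continuousAt).eventually_ne hx
  have h0 : A' * (A x)⁻¹ + A x * B' = 0 := by
    ext a b
    have e1 : HasDerivAt (fun θ => (A θ * (A θ)⁻¹) a b) ((A' * (A x)⁻¹ + A x * B') a b) x := by
      have e2 : HasDerivAt (fun θ => ∑ k, A θ a k * (A θ)⁻¹ k b)
          (∑ k, (A' a k * (A x)⁻¹ k b + A x a k * B' k b)) x := by
        apply HasDerivAt.fun_sum
        intro k _
        exact (hA a k).mul (hd k b)
      rw [Matrix.add_apply, Matrix.mul_apply, Matrix.mul_apply, ← Finset.sum_add_distrib]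
      exact e2
    have e3 : (fun θ => (A θ * (A θ)⁻¹) a b) =ᶠ[𝓝 x] fun _ => (1 : Matrix n n ℂ) a b := by
      filter_upwards [hne] with θ hθ
      rw [Matrix.mul_nonsing_inv _ (isUnit_iff_ne_zero.mpr hθ)]
    have e4 : HasDerivAt (fun _ : ℝ => (1 : Matrix n n ℂ) a b)
        ((A' * (A x)⁻¹ + A x * B') a b) x := e1.congr_of_eventuallyEq e3.symm
    exact e4.unique (hasDerivAt_const x _)
  have h5 : B' = -((A x)⁻¹ * A' * (A x)⁻¹) := by
    have h6 : A x * B' = -(A' * (A x)⁻¹) := by
      rw [eq_neg_iff_add_eq_zero, add_comm]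
      exact h0
    calc B' = (A x)⁻¹ * (A x * B') := by
          rw [← Matrix.mul_assoc, Matrix.nonsing_inv_mul _ hu, Matrix.one_mul]
      _ = -((A x)⁻¹ * A' * (A x)⁻¹) := by
          rw [h6, Matrix.mul_neg, Matrix.mul_assoc]
  rw [← h5]
  exact hd i j

/-- `tr (A⁻¹ A')` -/
noncomputable def gl (A : ℝ → Matrix n n ℂ) (x : ℝ) : ℂ :=
  ((A x)⁻¹ * Matrix.of fun i j => deriv (fun θ => A θ i j) x).trace

theorem deriv_det (A : ℝ → Matrix n n ℂ)
    (h : ∀ i j, Differentiable ℝ fun θ => A θ i j) (x : ℝ) (hx : (A x).det ≠ 0) :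
    HasDerivAt (fun θ => (A θ).det) ((A x).det * gl A x) x := by
  have h1 := hasDerivAt_det A (Matrix.of fun i j => deriv (fun θ => A θ i j) x) x
    (fun i j => (h i j x).hasDerivAt)
  refine h1.congr_deriv ?_
  rw [gl, Matrix.inv_def, Ring.inverse_eq_inv', Matrix.smul_mul, Matrix.trace_smul, smul_eq_mul,
    ← mul_assoc, mul_inv_cancel₀ hx, one_mul]

theorem hasDerivAt_gl (A : ℝ → Matrix n n ℂ)
    (h : ∀ i j, ContDiff ℝ 2 fun θ => A θ i j) (hx : (A 0).det ≠ 0) :
    HasDerivAt (gl A) (ld A) 0 := by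
  have hD : ∀ i j, Differentiable ℝ fun θ => A θ i j := fun i j =>
    (h i j).differentiable (by norm_num)
  have hD2 : ∀ i j, Differentiable ℝ (deriv fun θ => A θ i j) := by
    intro i j
    have h1 : ContDiff ℝ (1 + 1) fun θ => A θ i j := by
      have := h i j
      norm_num
      exact this
    exact ((contDiff_succ_iff_deriv.mp h1).2.2).differentiable (by norm_num)
  have e1 : HasDerivAt (fun x => ∑ i, ∑ k, (A x)⁻¹ i k * deriv (fun θ => A θ k i) x)
      (∑ i, ∑ k, ((-((A 0)⁻¹ * (Matrix.of fun i j => deriv (fun θ => A θ i j) 0) * (A 0)⁻¹)) i k *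
        deriv (fun θ => A θ k i) 0 + (A 0)⁻¹ i k * deriv (deriv fun θ => A θ k i) 0)) 0 := by
    apply HasDerivAt.fun_sum
    intro i _
    apply HasDerivAt.fun_sum
    intro k _
    exact (hasDerivAt_inv A hD 0 hx i k).mul ((hD2 k i) 0).hasDerivAt
  have e2 : gl A = fun x => ∑ i, ∑ k, (A x)⁻¹ i k * deriv (fun θ => A θ k i) x := by
    funext x
    rfl
  rw [e2]
  refine e1.congr_deriv ?_
  have e3 : ld A = (-((A 0)⁻¹ * (Matrix.of fun i j => deriv (fun θ => A θ i j) 0) * (A 0)⁻¹) *
      (Matrix.of fun i j => deriv (fun θ => A θ i j) 0)).trace +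
      ((A 0)⁻¹ * Matrix.of fun i j => deriv (deriv fun θ => A θ i j) 0).trace := by
    rw [ld, Matrix.neg_mul, Matrix.trace_neg]
    ring
  rw [e3]
  simp only [Matrix.trace, Matrix.diag_apply, Matrix.mul_apply, Matrix.of_apply,
    Finset.sum_add_distrib]

end

theorem tld : S_LD := by
  intro m n p _ _ _ _ _ _ M D H c hM hD hH hc h0 hid
  have dM : ∀ i j, Differentiable ℝ fun θ => M θ i j := fun i j =>
    (hM i j).differentiable (by norm_num)
  have dD : ∀ i j, Differentiable ℝ fun θ => D θ i j := fun i j =>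
    (hD i j).differentiable (by norm_num)
  have dH : ∀ i j, Differentiable ℝ fun θ => H θ i j := fun i j =>
    (hH i j).differentiable (by norm_num)
  have hprod : (D 0).det ^ 2 * (H 0).det ≠ 0 := by
    rw [← hid 0]
    exact mul_ne_zero h0 hc
  have hD0 : (D 0).det ≠ 0 := by
    intro h
    apply hprod
    rw [h]
    ring
  have hH0 : (H 0).det ≠ 0 := by
    intro h
    apply hprod
    rw [h]
    ring
  have eM : ∀ᶠ θ in 𝓝 (0 : ℝ), (M θ).det ≠ 0 :=
    ((differentiable_det M dM).continuous.continuousAt).eventually_ne h0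
  have eD : ∀ᶠ θ in 𝓝 (0 : ℝ), (D θ).det ≠ 0 :=
    ((differentiable_det D dD).continuous.continuousAt).eventually_ne hD0
  have eH : ∀ᶠ θ in 𝓝 (0 : ℝ), (H θ).det ≠ 0 :=
    ((differentiable_det H dH).continuous.continuousAt).eventually_ne hH0
  have key : gl M =ᶠ[𝓝 (0 : ℝ)] fun x => 2 * gl D x + gl H x := by
    filter_upwards [eM, eD, eH] with x hxM hxD hxH
    have a1 : HasDerivAt (fun θ => (M θ).det * c) ((M x).det * gl M x * c) x :=
      (deriv_det M dM x hxM).mul_const c
    have a2 : HasDerivAt (fun θ => (D θ).det ^ 2 * (H θ).det)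
        ((((2 : ℕ) : ℂ) * (D x).det ^ (2 - 1) * ((D x).det * gl D x)) * (H x).det +
          (D x).det ^ 2 * ((H x).det * gl H x)) x :=
      ((deriv_det D dD x hxD).pow 2).mul (deriv_det H dH x hxH)
    have a3 : (fun θ => (M θ).det * c) = fun θ => (D θ).det ^ 2 * (H θ).det := by
      funext θ
      exact hid θ
    rw [a3] at a1
    have a4 := a1.unique a2
    have a5 : (D x).det ^ 2 * (H x).det * gl M x =
        (D x).det ^ 2 * (H x).det * (2 * gl D x + gl H x) := by
      have a6 : (M x).det * gl M x * c = ((M x).det * c) * gl M x := by ring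
      rw [a6, hid x] at a4
      rw [a4]
      push_cast
      ring
    exact mul_left_cancel₀ (mul_ne_zero (pow_ne_zero 2 hxD) hxH) a5
  have b1 : HasDerivAt (gl M) (ld M) 0 := hasDerivAt_gl M hM h0
  have b2 : HasDerivAt (fun x => 2 * gl D x + gl H x) (2 * ld D + ld H) 0 :=
    ((hasDerivAt_gl D hD hD0).const_mul 2).add (hasDerivAt_gl H hH hH0)
  exact (b1.congr_of_eventuallyEq key.symm).unique b2

end Pool.Agent.H404.AF

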